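import Mathlib

namespace Pool.Agent.H22.F10f644

/-- `F` is a family of cliques of `G` (each on at least two vertices) covering all edges. -/
def IsCliqueCover {V : Type} (G : SimpleGraph V) (F : Finset (Finset V)) : Prop :=
  (∀ S ∈ F, 2 ≤ S.card ∧ ∀ u ∈ S, ∀ v ∈ S, u ≠ v → G.Adj u v) ∧
    ∀ u v, G.Adj u v → ∃ S ∈ F, u ∈ S ∧ v ∈ S

/-- `F` is a family of cliques of `G` (each on at least two vertices) such that each edge lies in
exactly one of them. -/
def IsCliquePartition {V : Type} (G : SimpleGraph V) (F : Finset (Finset V)) : Prop :=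
  (∀ S ∈ F, 2 ≤ S.card ∧ ∀ u ∈ S, ∀ v ∈ S, u ≠ v → G.Adj u v) ∧
    ∀ u v, G.Adj u v → ∃! S, S ∈ F ∧ u ∈ S ∧ v ∈ S

/-- The edge clique cover number. -/
noncomputable def cc {V : Type} (G : SimpleGraph V) : ℕ :=
  sInf {m | ∃ F : Finset (Finset V), IsCliqueCover G F ∧ F.card = m}

/-- The clique partition number. -/
noncomputable def cp {V : Type} (G : SimpleGraph V) : ℕ :=
  sInf {m | ∃ F : Finset (Finset V), IsCliquePartition G F ∧ F.card = m}

end Pool.Agent.H22.F10f644
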