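import Mathlib
import Pool.Agent.H22.F10f644.Defs

open Finset

namespace Pool.Agent.H22.F10f644

/-- The trivial partition into edges. -/
theorem exists_partition {V : Type} [Fintype V] (G : SimpleGraph V) :
    ∃ F : Finset (Finset V), IsCliquePartition G F := by
  classical
  refine ⟨(Finset.univ : Finset (Finset V)).filter
    (fun S => ∃ u v, G.Adj u v ∧ S = {u, v}), ?_, ?_⟩
  · intro S hS
    rw [Finset.mem_filter] at hS
    obtain ⟨-, u, v, huv, rfl⟩ := hS
    refine ⟨?_, ?_⟩
    · rw [Finset.card_pair huv.ne]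
    · intro a ha b hb hab
      rw [Finset.mem_insert, Finset.mem_singleton] at ha hb
      rcases ha with rfl | rfl <;> rcases hb with rfl | rfl
      · exact absurd rfl hab
      · exact huv
      · exact huv.symm
      · exact absurd rfl hab
  · intro u v huv
    refine ⟨{u, v}, ⟨?_, ?_, ?_⟩, ?_⟩
    · rw [Finset.mem_filter]
      exact ⟨Finset.mem_univ _, u, v, huv, rfl⟩
    · simp
    · simp
    · rintro S ⟨hS, hu, hv⟩
      rw [Finset.mem_filter] at hS
      obtain ⟨-, a, b, hab, rfl⟩ := hS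
      rw [Finset.mem_insert, Finset.mem_singleton] at hu hv
      rcases hu with rfl | rfl <;> rcases hv with rfl | rfl
      · exact absurd rfl huv.ne
      · rfl
      · exact Finset.pair_comm _ _
      · exact absurd rfl huv.ne

/-- Weight duality: if `w` gives every clique total weight at most `2` (over ordered pairs) then
every clique partition has at least half the total weight members. -/
theorem weight_le_card {V : Type} [Fintype V] [DecidableEq V] (G : SimpleGraph V)
    [DecidableRel G.Adj] (w : V → V → ℤ)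
    (hw : ∀ S : Finset V, (∀ u ∈ S, ∀ v ∈ S, u ≠ v → G.Adj u v) →
      ∑ u ∈ S, ∑ v ∈ S, (if u = v then 0 else w u v) ≤ 2)
    (F : Finset (Finset V)) (hF : IsCliquePartition G F) :
    ∑ u, ∑ v, (if G.Adj u v then w u v else 0) ≤ 2 * (F.card : ℤ) := by
  classical
  have h1 : ∀ S ∈ F, ∑ u ∈ S, ∑ v ∈ S, (if u = v then 0 else w u v)
      = ∑ u, ∑ v, (if u ∈ S ∧ v ∈ S ∧ u ≠ v then w u v else 0) := by
    intro S _
    rw [← Finset.sum_subset (Finset.subset_univ S)]
    · refine Finset.sum_congr rfl fun u hu => ?_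
      rw [← Finset.sum_subset (Finset.subset_univ S)]
      · refine Finset.sum_congr rfl fun v hv => ?_
        by_cases h : u = v
        · simp [h]
        · simp [h, hu, hv]
      · intro v _ hv
        simp [hv]
    · intro u _ hu
      refine Finset.sum_eq_zero fun v _ => ?_
      simp [hu]
  have h2 : ∑ u, ∑ v, (if G.Adj u v then w u v else 0)
      = ∑ S ∈ F, ∑ u, ∑ v, (if u ∈ S ∧ v ∈ S ∧ u ≠ v then w u v else 0) := by
    rw [Finset.sum_comm (s := F)]
    refine Finset.sum_congr rfl fun u _ => ?_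
    rw [Finset.sum_comm (s := F)]
    refine Finset.sum_congr rfl fun v _ => ?_
    by_cases h : G.Adj u v
    · rw [if_pos h]
      obtain ⟨S, ⟨hS, hu, hv⟩, huniq⟩ := hF.2 u v h
      rw [Finset.sum_eq_single S]
      · simp [hu, hv, h.ne]
      · intro T hT hTS
        rw [if_neg]
        rintro ⟨hu', hv', -⟩
        exact hTS (huniq T ⟨hT, hu', hv'⟩)
      · intro h'
        exact absurd hS h'
    · rw [if_neg h]
      symm
      refine Finset.sum_eq_zero fun S hS => ?_
      rw [if_neg]
      rintro ⟨hu', hv', hne⟩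
      exact h ((hF.1 S hS).2 u hu' v hv' hne)
  rw [h2]
  calc _ ≤ ∑ S ∈ F, (2 : ℤ) := by
        refine Finset.sum_le_sum fun S hS => ?_
        rw [← h1 S hS]
        exact hw S (hF.1 S hS).2
    _ = 2 * (F.card : ℤ) := by
        rw [Finset.sum_const]
        simp [mul_comm]

/-- The graph: blocks of size `m`; the first three blocks form the centre. -/
def blockAdj (a b : Fin 7) : Prop := a.val ≤ 2 ∨ b.val ≤ 2 ∨ a = b

instance : DecidableRel blockAdj := fun a b => by unfold blockAdj; infer_instance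

def starGraph (m : ℕ) : SimpleGraph (Fin 7 × Fin m) where
  Adj x y := x ≠ y ∧ blockAdj x.1 y.1
  symm := ⟨by
    rintro x y ⟨h1, h2⟩
    refine ⟨h1.symm, ?_⟩
    rcases h2 with h | h | h
    · exact Or.inr (Or.inl h)
    · exact Or.inl h
    · exact Or.inr (Or.inr h.symm)⟩
  loopless := ⟨fun x h => h.1 rfl⟩

instance (m : ℕ) : DecidableRel (starGraph m).Adj := fun x y => by
  unfold starGraph; infer_instance

/-- `1` for vertices of the leaf cliques, `0` for vertices of the centre. -/
def lf (a : Fin 7) : ℤ := if a.val ≤ 2 then 0 else 1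

def wt (a b : Fin 7) : ℤ := -1 + 2 * (lf a + lf b) - 5 * (lf a * lf b)

theorem clique_weight (m : ℕ) (S : Finset (Fin 7 × Fin m)) :
    ∑ u ∈ S, ∑ v ∈ S, (if u = v then 0 else wt u.1 v.1) ≤ 2 := by
  classical
  have h1 : ∑ u ∈ S, ∑ v ∈ S, (if u = v then 0 else wt u.1 v.1)
      = ∑ u ∈ S, ∑ v ∈ S, wt u.1 v.1 - ∑ u ∈ S, wt u.1 u.1 := by
    rw [← Finset.sum_sub_distrib]
    refine Finset.sum_congr rfl fun u hu => ?_
    have : ∑ v ∈ S, wt u.1 v.1 - wt u.1 u.1 = ∑ v ∈ S, (wt u.1 v.1 - if u = v then wt u.1 u.1 else 0) := by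
      rw [Finset.sum_sub_distrib, Finset.sum_ite_eq S u (fun _ => wt u.1 u.1), if_pos hu]
    rw [this]
    refine Finset.sum_congr rfl fun v _ => ?_
    by_cases h : u = v
    · subst h; simp
    · simp [h]
  rw [h1]
  set P : ℤ := ∑ u ∈ S, lf u.1 with hP
  set N : ℤ := (S.card : ℤ) with hN
  have h2 : ∑ u ∈ S, ∑ v ∈ S, wt u.1 v.1 = -N * N + 4 * P * N - 5 * P * P := by
    simp only [wt, Finset.sum_sub_distrib, Finset.sum_add_distrib, ← Finset.mul_sum,
      Finset.sum_const, ← Finset.sum_mul, nsmul_eq_mul, ← hP, ← hN]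
    ring
  have h3 : ∑ u ∈ S, wt u.1 u.1 = -N - P := by
    have : ∀ u : Fin 7 × Fin m, wt u.1 u.1 = -1 - lf u.1 := by
      intro u
      unfold wt lf
      split_ifs <;> norm_num
    simp only [this, Finset.sum_sub_distrib, Finset.sum_const, nsmul_eq_mul, ← hP, ← hN]
    ring
  rw [h2, h3]
  -- `N = P + Q`
  obtain ⟨Q, hQ⟩ : ∃ Q : ℤ, N = P + Q := ⟨N - P, by ring⟩
  have h4 : (0:ℤ) ≤ (Q - P) * (Q - P - 1) := by
    rcases le_or_gt (Q - P) 0 with h | h
    · nlinarith
    · exact mul_nonneg h.le (by omega)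
  have h5 : (0:ℤ) ≤ (P - 1) * (P - 2) := by
    rcases le_or_gt P 1 with h | h
    · nlinarith
    · exact mul_nonneg (by omega) (by omega)
  rw [hQ]
  nlinarith

theorem total_weight (m : ℕ) :
    ∑ u : Fin 7 × Fin m, ∑ v : Fin 7 × Fin m,
      (if (starGraph m).Adj u v then wt u.1 v.1 else 0) = 7 * (m : ℤ) ^ 2 + 11 * m := by
  classical
  have h1 : ∀ u v : Fin 7 × Fin m, (if (starGraph m).Adj u v then wt u.1 v.1 else 0)
      = (if blockAdj u.1 v.1 then wt u.1 v.1 else 0) - (if u = v then wt u.1 u.1 else 0) := by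
    intro u v
    by_cases h : u = v
    · subst h
      simp [starGraph, blockAdj]
    · simp [starGraph, h]
  simp only [h1, Finset.sum_sub_distrib, Finset.sum_ite_eq, Finset.mem_univ, if_true]
  simp only [Fintype.sum_prod_type, Finset.sum_const, Finset.card_univ, Fintype.card_fin,
    nsmul_eq_mul, ← Finset.mul_sum]
  have h2 : ∑ a : Fin 7, ∑ b : Fin 7, (if blockAdj a b then wt a b else 0) = 7 := by decide
  have h3 : ∑ a : Fin 7, wt a a = -11 := by decide
  rw [h2, h3]
  ring

theorem partition_card (m : ℕ) (F : Finset (Finset (Fin 7 × Fin m)))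
    (hF : IsCliquePartition (starGraph m) F) : 7 * m ^ 2 + 11 * m ≤ 2 * F.card := by
  have h := weight_le_card (starGraph m) (fun u v => wt u.1 v.1)
    (fun S _ => clique_weight m S) F hF
  rw [total_weight] at h
  exact_mod_cast h

/-- The four cliques. -/
def coverClique (m : ℕ) (i : Fin 4) : Finset (Fin 7 × Fin m) :=
  Finset.univ.filter (fun x => x.1.val ≤ 2 ∨ x.1.val = i.val + 3)

theorem isCliqueCover_star (m : ℕ) (hm : 0 < m) :
    IsCliqueCover (starGraph m) (Finset.univ.image (coverClique m)) := by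
  classical
  constructor
  · intro S hS
    rw [Finset.mem_image] at hS
    obtain ⟨i, -, rfl⟩ := hS
    constructor
    · have hsub : ({((0 : Fin 7), (⟨0, hm⟩ : Fin m)), ((1 : Fin 7), (⟨0, hm⟩ : Fin m))} :
          Finset (Fin 7 × Fin m)) ⊆ coverClique m i := by
        intro x hx
        rw [Finset.mem_insert, Finset.mem_singleton] at hx
        rw [coverClique, Finset.mem_filter]
        refine ⟨Finset.mem_univ _, Or.inl ?_⟩
        rcases hx with rfl | rfl <;> simp
      refine le_trans ?_ (Finset.card_le_card hsub)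
      rw [Finset.card_pair]
      simp
    · intro u hu v hv huv
      rw [coverClique, Finset.mem_filter] at hu hv
      refine ⟨huv, ?_⟩
      rcases hu.2 with h | h
      · exact Or.inl h
      · rcases hv.2 with h' | h'
        · exact Or.inr (Or.inl h')
        · exact Or.inr (Or.inr (Fin.ext (h.trans h'.symm)))
  · rintro u v ⟨huv, hb⟩
    have key : ∀ a b : Fin 7, blockAdj a b → ∃ i : Fin 4, (a.val ≤ 2 ∨ a.val = i.val + 3) ∧
        (b.val ≤ 2 ∨ b.val = i.val + 3) := by decide
    obtain ⟨i, h1, h2⟩ := key u.1 v.1 hb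
    refine ⟨coverClique m i, Finset.mem_image_of_mem _ (Finset.mem_univ _), ?_, ?_⟩
    · rw [coverClique, Finset.mem_filter]; exact ⟨Finset.mem_univ _, h1⟩
    · rw [coverClique, Finset.mem_filter]; exact ⟨Finset.mem_univ _, h2⟩

/-- Transport of covers and partitions. -/
theorem IsCliqueCover.comap {V W : Type} (e : W ≃ V) (G : SimpleGraph V) (F : Finset (Finset V))
    (h : IsCliqueCover G F) :
    IsCliqueCover (G.comap e) (F.map (Equiv.finsetCongr e.symm).toEmbedding) := by
  classical
  constructor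
  · intro S hS
    rw [Finset.mem_map] at hS
    obtain ⟨T, hT, rfl⟩ := hS
    simp only [Equiv.coe_toEmbedding, Equiv.finsetCongr_apply, Finset.card_map, Finset.mem_map]
    refine ⟨(h.1 T hT).1, ?_⟩
    rintro _ ⟨a, ha, rfl⟩ _ ⟨b, hb, rfl⟩ hab
    simp only [SimpleGraph.comap_adj, Equiv.apply_symm_apply]
    exact (h.1 T hT).2 a ha b hb (fun h' => hab (by rw [h']))
  · intro u v huv
    obtain ⟨S, hS, h1, h2⟩ := h.2 (e u) (e v) huv
    refine ⟨_, Finset.mem_map_of_mem _ hS, ?_, ?_⟩
    · simp only [Equiv.coe_toEmbedding, Equiv.finsetCongr_apply, Finset.mem_map]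
      exact ⟨e u, h1, by simp⟩
    · simp only [Equiv.coe_toEmbedding, Equiv.finsetCongr_apply, Finset.mem_map]
      exact ⟨e v, h2, by simp⟩

theorem IsCliquePartition.comap {V W : Type} (e : W ≃ V) (G : SimpleGraph V)
    (F : Finset (Finset V)) (h : IsCliquePartition G F) :
    IsCliquePartition (G.comap e) (F.map (Equiv.finsetCongr e.symm).toEmbedding) := by
  classical
  have hmem : ∀ (u : W) (S : Finset V), u ∈ (Equiv.finsetCongr e.symm) S ↔ e u ∈ S := by
    intro u S
    simp only [Equiv.finsetCongr_apply, Finset.mem_map]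
    constructor
    · rintro ⟨a, ha, rfl⟩
      simpa using ha
    · intro hu
      exact ⟨e u, hu, by simp⟩
  constructor
  · intro S hS
    rw [Finset.mem_map] at hS
    obtain ⟨T, hT, rfl⟩ := hS
    refine ⟨?_, ?_⟩
    · simpa using (h.1 T hT).1
    · intro a ha b hb hab
      rw [Equiv.coe_toEmbedding, hmem] at ha hb
      exact (h.1 T hT).2 _ ha _ hb (fun h' => hab (e.injective h'))
  · intro u v huv
    obtain ⟨S, ⟨hS, h1, h2⟩, huniq⟩ := h.2 (e u) (e v) huv
    refine ⟨(Equiv.finsetCongr e.symm) S, ⟨Finset.mem_map_of_mem _ hS, (hmem _ _).2 h1,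
      (hmem _ _).2 h2⟩, ?_⟩
    rintro T ⟨hT, h3, h4⟩
    rw [Finset.mem_map] at hT
    obtain ⟨T', hT', rfl⟩ := hT
    rw [Equiv.coe_toEmbedding, hmem] at h3 h4
    rw [huniq T' ⟨hT', h3, h4⟩]
    rfl

theorem cc_le {V : Type} (G : SimpleGraph V) (F : Finset (Finset V)) (h : IsCliqueCover G F) :
    cc G ≤ F.card := Nat.sInf_le ⟨F, h, rfl⟩

theorem cc_pos {V : Type} (G : SimpleGraph V) (hG : G ≠ ⊥) (F : Finset (Finset V))
    (h : IsCliqueCover G F) : 0 < cc G := by
  have hne : {m | ∃ F : Finset (Finset V), IsCliqueCover G F ∧ F.card = m}.Nonempty :=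
    ⟨F.card, F, h, rfl⟩
  obtain ⟨F', hF', hc⟩ := Nat.sInf_mem hne
  rw [Nat.pos_iff_ne_zero]
  intro h0
  have hF0 : F' = ∅ := by
    rw [← Finset.card_eq_zero, hc]
    exact h0
  apply hG
  ext u v
  simp only [SimpleGraph.bot_adj, iff_false]
  intro huv
  obtain ⟨S, hS, -⟩ := hF'.2 u v huv
  rw [hF0] at hS
  exact absurd hS (Finset.notMem_empty S)

theorem le_cp {V : Type} [Fintype V] (G : SimpleGraph V) (k : ℕ)
    (h : ∀ F : Finset (Finset V), IsCliquePartition G F → k ≤ F.card) : k ≤ cp G := by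
  have hne : {m | ∃ F : Finset (Finset V), IsCliquePartition G F ∧ F.card = m}.Nonempty := by
    obtain ⟨F, hF⟩ := exists_partition G
    exact ⟨F.card, F, hF, rfl⟩
  obtain ⟨F', hF', hc⟩ := Nat.sInf_mem hne
  have := h F' hF'
  rw [hc] at this
  exact this

/-- Main lower bound. -/
theorem main (m : ℕ) (hm : 0 < m) : ∃ G : SimpleGraph (Fin (7 * m)), G ≠ ⊥ ∧
    1 / 56 * ((7 * m : ℕ) : ℝ) ^ 2 < (cp G : ℝ) / (cc G : ℝ) := by
  classical
  set e : Fin (7 * m) ≃ Fin 7 × Fin m := finProdFinEquiv.symm with he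
  refine ⟨(starGraph m).comap e, ?_, ?_⟩
  · intro hbot
    have h1 : ((starGraph m).comap e).Adj (e.symm ((0 : Fin 7), ⟨0, hm⟩))
        (e.symm ((1 : Fin 7), ⟨0, hm⟩)) := by
      rw [SimpleGraph.comap_adj, Equiv.apply_symm_apply, Equiv.apply_symm_apply]
      exact ⟨by simp, Or.inl (by simp)⟩
    rw [hbot] at h1
    exact h1
  · have hcover := (isCliqueCover_star m hm).comap e
    have hcc : cc ((starGraph m).comap e) ≤ 4 := by
      refine (cc_le _ _ hcover).trans ?_
      rw [Finset.card_map]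
      refine Finset.card_image_le.trans ?_
      simp
    have hbot : (starGraph m).comap e ≠ ⊥ := by
      intro hbot
      have h1 : ((starGraph m).comap e).Adj (e.symm ((0 : Fin 7), ⟨0, hm⟩))
          (e.symm ((1 : Fin 7), ⟨0, hm⟩)) := by
        rw [SimpleGraph.comap_adj, Equiv.apply_symm_apply, Equiv.apply_symm_apply]
        exact ⟨by simp, Or.inl (by simp)⟩
      rw [hbot] at h1
      exact h1
    have hccpos : 0 < cc ((starGraph m).comap e) := cc_pos _ hbot _ hcover
    have hcp : ∀ F : Finset (Finset (Fin (7 * m))), IsCliquePartition ((starGraph m).comap e) F →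
        7 * m ^ 2 + 11 * m ≤ 2 * F.card := by
      intro F hF
      have h1 := hF.comap e.symm
      have h2 : ((starGraph m).comap e).comap e.symm = starGraph m := by
        ext a b
        simp
      rw [h2] at h1
      have := partition_card m _ h1
      rwa [Finset.card_map] at this
    have hcp2 : 7 * m ^ 2 + 11 * m ≤ 2 * cp ((starGraph m).comap e) := by
      have := le_cp ((starGraph m).comap e) ((7 * m ^ 2 + 11 * m + 1) / 2) (fun F hF => by
        have := hcp F hF
        omega)
      omega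
    have hcp3 : (7 * (m : ℝ) ^ 2 + 11 * m) ≤ 2 * (cp ((starGraph m).comap e) : ℝ) := by
      exact_mod_cast hcp2
    have hcc4 : (cc ((starGraph m).comap e) : ℝ) ≤ 4 := by exact_mod_cast hcc
    have hcc0 : (0 : ℝ) < (cc ((starGraph m).comap e) : ℝ) := by exact_mod_cast hccpos
    have hm0 : (0 : ℝ) < m := by exact_mod_cast hm
    rw [lt_div_iff₀ hcc0]
    push_cast
    have : (1 : ℝ) / 56 * (7 * (m : ℝ)) ^ 2 * (cc ((starGraph m).comap e) : ℝ)
        ≤ 1 / 56 * (7 * (m : ℝ)) ^ 2 * 4 :=
      mul_le_mul_of_nonneg_left hcc4 (by positivity)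
    nlinarith

end Pool.Agent.H22.F10f644
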